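import Pool.Agent.BCS.Stmts2

/-!
# Row GSM of squad BCS (MP_fb4904_gt): the volume density of a smooth family of metrics
-/

noncomputable section

open scoped ContDiff Topology ComplexConjugate
open Set MeasureTheory

namespace Pool.Agent.BCS.H99

open Pool.Agent.SecondKind (Coord pd inv christoffel ricci)
open Pool.Agent.RLim.H58 (dg)

theorem posdef {m : ℕ} {h : ℂ → Coord m} (hh : FibM h) (z : ℂ) (t : Fin m → ℝ) :
    (Matrix.of (h z t)).PosDef := by
  apply Matrix.PosDef.of_dotProduct_mulVec_pos
  · apply Matrix.IsHermitian.ext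
    intro i j
    simp only [Matrix.of_apply, star_trivial]
    exact hh.symm z t j i
  · intro x hx
    have h1 := hh.pos z t x hx
    have h2 : star x ⬝ᵥ (Matrix.of (h z t)).mulVec x = ∑ i, ∑ j, h z t i j * x i * x j := by
      simp only [star_trivial, dotProduct, Matrix.mulVec, Matrix.of_apply]
      refine Finset.sum_congr rfl (fun i _ => ?_)
      rw [Finset.mul_sum]
      exact Finset.sum_congr rfl (fun j _ => by ring)
    rw [h2]
    exact h1

theorem gsm : GsmStmt := by
  intro m h hh
  have hpos : ∀ z t, 0 < (Matrix.of (h z t)).det := fun z t => (posdef hh z t).det_pos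
  refine ⟨hpos, ?_, ?_⟩
  · have hdet : ContDiff ℝ ∞ (fun p : ℂ × (Fin m → ℝ) => (Matrix.of (h p.1 p.2)).det) := by
      have e : (fun p : ℂ × (Fin m → ℝ) => (Matrix.of (h p.1 p.2)).det) =
          fun p => ∑ σ : Equiv.Perm (Fin m), ((Equiv.Perm.sign σ : ℤ) : ℝ) *
            ∏ i, h p.1 p.2 (σ i) i := by
        funext p
        rw [Matrix.det_apply']
        rfl
      rw [e]
      exact ContDiff.sum (fun σ _ => contDiff_const.mul
        (contDiff_prod (fun i _ => hh.smooth (σ i) i)))
    have h2 : ContDiff ℝ ∞ (fun p : ℂ × (Fin m → ℝ) =>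
        Real.log (Matrix.of (h p.1 p.2)).det / 2) :=
      (hdet.log (fun p => (hpos p.1 p.2).ne')).div_const 2
    exact h2
  · intro z t i
    unfold lvol
    rw [hh.per]

end Pool.Agent.BCS.H99
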